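import Pool.Agent.V11217.NWN

/-!
# The quotient `L(E/K, s) / L(E/ℚ, s)` and its values at the integers

Let `E : y² = x³ + a x + b`, `a, b ∈ ℤ`, be an elliptic curve over `ℚ`. For a number field `K` let `L_K(s)`,
`Re s > 3/2`, be the product of the Euler factors of `E` over the primes of `K` not dividing
`6 (4 a³ + 27 b²)`; it is `L(E/K, s)` up to finitely many Euler factors, which have no zeros and poles in
`Re s > 1/2`. For `k ⊂ K` (for instance `k = ℚ`) the quotient `R(s) = L_K(s) / L_k(s)` is the `L`-function of `E`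
twisted by the representation `Ind 1 - 1` of the Galois group of `k`; it is expected to be holomorphic, and for
`k = ℚ` its continuation gives that of `L(E/K, s)`, because `L(E/ℚ, s)` is entire (modularity).

Only the VALUES `R(m) = L_K(m) / L_k(m)` at the integers `m = 2, 3, 4, …` are used. For `h, n ≥ 1` let

`Δ(h, n) = ∑_{j ≤ n} (-1)^j (n choose j) R(2 + h j)`

be their `n`-th difference with step `h` at the point `2`. It is shown, for all `a, b ∈ ℤ` and all number fields
`k`, `K`:

1. For every real `θ ≤ 3/2`, `R` has a holomorphic continuation to `Re s > θ` which is of polynomial growth in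
   `Re s ≥ σ` for every `σ > θ`, IF AND ONLY IF for every `0 < α < 2 - θ` there are `C, κ` with
   `|Δ(h, n)| ≤ C h^κ n^{-α/h}` for all `h, n ≥ 1`.
2. `R` has an entire continuation of polynomial growth in every right half plane IF AND ONLY IF this holds for
   every `α > 0`. If this is so and `L_k` has such a continuation (for `k = ℚ` up to the finitely many Euler
   factors by the modularity theorem), then `L_K` has such a continuation.
3. One step suffices for the holomorphy: if `Δ(1, n)` is `O(n^{-α})` for all `0 < α < 2 - θ` (for all `α`), then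
   `R` is holomorphic for `Re s > θ` (entire).

The trivial bound is `|Δ(h, n)| ≤ C n^{-α/h}` for `α < 1/2`. No continuation is assumed.

Proof. `R(2 + w)` is an absolutely convergent general Dirichlet series for `Re w ≥ -1/4`. If the differences are
small, then Newton's interpolation series with step `h` converge in the larger half plane, where they all agree,
and the series with the step `h ∼ |w|` gives the growth. Conversely the differences are the integrals of Nörlund
and Rice, `2π Δ(h, n) = ∫ R(2 - h s) B(s, n + 1)`, over the line `Re s = α/h`, with the beta function `B`.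
-/

set_option autoImplicit false

namespace Pool.Agent.Results.MP_bf9450_nt.ValuesAtIntegers

open Filter Topology NumberField IsDedekindDomain

section defs

variable (K : Type) [Field K] [NumberField K] (a b : ℤ)

/-- The norm of the prime `v` of `K`. -/
noncomputable def nrm {K : Type} [Field K] [NumberField K] (v : HeightOneSpectrum (𝓞 K)) : ℕ :=
  Ideal.absNorm v.asIdeal

/-- `v` does not divide `6 (4 a³ + 27 b²)`. -/
def Good (v : HeightOneSpectrum (𝓞 K)) : Prop :=
  6 * (4 * (a : 𝓞 K) ^ 3 + 27 * (b : 𝓞 K) ^ 2) ∉ v.asIdeal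

/-- The number of affine points of `y² = x³ + a x + b` modulo `v`. -/
noncomputable def pts (v : HeightOneSpectrum (𝓞 K)) : ℕ :=
  Nat.card {P : (𝓞 K ⧸ v.asIdeal) × (𝓞 K ⧸ v.asIdeal) //
    P.2 ^ 2 = P.1 ^ 3 + Ideal.Quotient.mk v.asIdeal (a : 𝓞 K) * P.1 + Ideal.Quotient.mk v.asIdeal (b : 𝓞 K)}

/-- The Euler factor `(1 - a_v (N v)^{-s} + (N v)^{1 - 2s})⁻¹`, `a_v = N v - N_v`. -/
noncomputable def factor (v : HeightOneSpectrum (𝓞 K)) (s : ℂ) : ℂ :=
  (1 - ((nrm v : ℂ) - pts K a b v) * (nrm v : ℂ) ^ (-s) + (nrm v : ℂ) ^ (1 - 2 * s))⁻¹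

/-- `L_K(s)`: the product of the Euler factors over the good primes of `K`. -/
noncomputable def euler (s : ℂ) : ℂ := ∏' v : {v // Good K a b v}, factor K a b v.1 s

end defs

/-- The `n`-th difference with step `h` of the values `f(2), f(2 + h), f(2 + 2 h), …`. -/
noncomputable def difference (f : ℂ → ℂ) (h n : ℕ) : ℂ :=
  ∑ j ∈ Finset.range (n + 1), (-1 : ℂ) ^ j * (n.choose j : ℂ) * f (2 + h * j)

/-- The bound `C h^κ n^{-α/h}` for the differences, for all steps `h` and all orders `n`. -/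
def SmallDifferences (f : ℂ → ℂ) (α : ℝ) : Prop :=
  ∃ (C : ℝ) (κ : ℕ), ∀ h n : ℕ, 1 ≤ h → 1 ≤ n →
    ‖difference f h n‖ ≤ C * (h : ℝ) ^ κ * (n : ℝ) ^ (-(α / h))

/-- `f(s)`, `Re s > 3/2`, has a holomorphic continuation to `Re s > θ` which is of polynomial growth in
`Re s ≥ σ` for every `σ > θ`. -/
def Continues (f : ℂ → ℂ) (θ : ℝ) : Prop :=
  ∃ G : ℂ → ℂ, (∀ s : ℂ, θ < s.re → DifferentiableAt ℂ G s) ∧ (∀ s : ℂ, 3 / 2 < s.re → G s = f s) ∧
    ∀ σ : ℝ, θ < σ → ∃ (B : ℝ) (κ : ℕ), ∀ s : ℂ, σ ≤ s.re → ‖G s‖ ≤ B * (1 + ‖s‖) ^ κ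

/-- `f(s)`, `Re s > 3/2`, has an entire continuation of polynomial growth in every right half plane. -/
def ContinuesEverywhere (f : ℂ → ℂ) : Prop :=
  ∃ G : ℂ → ℂ, Differentiable ℂ G ∧ (∀ s : ℂ, 3 / 2 < s.re → G s = f s) ∧
    ∀ σ : ℝ, ∃ (B : ℝ) (κ : ℕ), ∀ s : ℂ, σ ≤ s.re → ‖G s‖ ≤ B * (1 + ‖s‖) ^ κ

open Pool.Agent.V11217.NW

theorem euler_eq (K : Type) [Field K] [NumberField K] (a b : ℤ) : euler K a b = Lg K a b := by
  funext s
  unfold euler Lg Pool.Agent.TH942.ES.LE
  refine tprod_congr fun v => ?_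
  have h := Pool.Agent.TH942.ES.curve_factor (a := (a : 𝓞 K)) (b := (b : 𝓞 K)) v (s - 1)
  rw [add_sub_cancel] at h
  exact h.symm

theorem diff_eq (L : ℂ → ℂ) (h n : ℕ) : D (fun w => L (2 + w)) h n = difference L h n := by
  unfold D difference
  refine Finset.sum_congr rfl fun k _ => ?_
  push_cast
  rfl

theorem small_iff (L : ℂ → ℂ) (α : ℝ) :
    SmallDifferences L α ↔ ∃ (C : ℝ) (κ : ℕ), DB (fun w => L (2 + w)) α C κ := by
  unfold SmallDifferences DB
  simp only [diff_eq]

/-- **Theorem.** Let `a, b` be integers, `k`, `K` number fields, and `R = L_K / L_k`.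

(1) For every `θ ≤ 3/2`, `R` has a holomorphic continuation to `Re s > θ`, of polynomial growth in `Re s ≥ σ`
for all `σ > θ`, if and only if for all `0 < α < 2 - θ` the differences
`∑_{j ≤ n} (-1)^j (n choose j) R(2 + h j)` are `O(h^κ n^{-α/h})` for some `κ`, uniformly in `h, n ≥ 1`.

(2) `R` has an entire continuation of polynomial growth in every right half plane if and only if this holds for
all `α > 0`. If this is so and `L_k` has such a continuation, then `L_K` has such a continuation.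

(3) If `∑_{j ≤ n} (-1)^j (n choose j) R(2 + j) = O(n^{-α})` for all `0 < α < 2 - θ`, then `R` has a holomorphic
continuation to `Re s > θ`, `θ ≤ 3/2`; if this holds for all `α`, then `R` has an entire continuation. -/
theorem result (a b : ℤ) (k K : Type) [Field k] [NumberField k] [Field K] [NumberField K] :
    (∀ θ : ℝ, θ ≤ 3 / 2 → (Continues (fun s => euler K a b s / euler k a b s) θ ↔
      ∀ α : ℝ, 0 < α → α < 2 - θ → SmallDifferences (fun s => euler K a b s / euler k a b s) α)) ∧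
    (ContinuesEverywhere (fun s => euler K a b s / euler k a b s) ↔
      ∀ α : ℝ, 0 < α → SmallDifferences (fun s => euler K a b s / euler k a b s) α) ∧
    ((∀ α : ℝ, 0 < α → SmallDifferences (fun s => euler K a b s / euler k a b s) α) →
      ContinuesEverywhere (euler k a b) → ContinuesEverywhere (euler K a b)) ∧
    (∀ θ : ℝ, θ ≤ 3 / 2 →
      (∀ α : ℝ, 0 < α → α < 2 - θ → ∃ C : ℝ, ∀ n : ℕ, 1 ≤ n →
        ‖difference (fun s => euler K a b s / euler k a b s) 1 n‖ ≤ C * (n : ℝ) ^ (-α)) →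
      ∃ G : ℂ → ℂ, (∀ s : ℂ, θ < s.re → DifferentiableAt ℂ G s) ∧
        ∀ s : ℂ, 3 / 2 < s.re → G s = euler K a b s / euler k a b s) ∧
    ((∀ α : ℝ, ∃ C : ℝ, ∀ n : ℕ, 1 ≤ n →
        ‖difference (fun s => euler K a b s / euler k a b s) 1 n‖ ≤ C * (n : ℝ) ^ (-α)) →
      ∃ G : ℂ → ℂ, Differentiable ℂ G ∧
        ∀ s : ℂ, 3 / 2 < s.re → G s = euler K a b s / euler k a b s) := by
  obtain ⟨ι, hι, cc, l, R⟩ := quot_rep k K (a : 𝓞 k) (b : 𝓞 k) (a : 𝓞 K) (b : 𝓞 K)
  simp only [euler_eq]
  have hd : ∀ s : ℂ, 3 / 2 < s.re → DifferentiableAt ℂ (fun s => Lg K a b s / Lg k a b s) s :=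
    fun s hs => (Lg_diff K a b hs).div (Lg_diff k a b hs) (Lg_ne k a b hs)
  have hW : ContinuesEverywhere (fun s => Lg K a b s / Lg k a b s) ↔
      ∀ α : ℝ, 0 < α → SmallDifferences (fun s => Lg K a b s / Lg k a b s) α := by
    simp only [small_iff]
    exact whole_plane (L := fun s => Lg K a b s / Lg k a b s) R hd (by norm_num)
  refine ⟨fun θ hθ => ?_, hW, ?_, fun θ hθ H => ?_, fun H => ?_⟩
  · simp only [small_iff]
    rw [← half_plane (L := fun s => Lg K a b s / Lg k a b s) R hd (by norm_num) (c := 2 - θ)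
      (by linarith) (by linarith)]
    have e : 2 - (2 - θ) = θ := by ring
    rw [e]
    constructor
    · rintro ⟨F, h1, h2, h3⟩
      exact ⟨F, h1, h2, fun α hα => h3 (2 - α) (by linarith)⟩
    · rintro ⟨F, h1, h2, h3⟩
      refine ⟨F, h1, h2, fun σ hσ => ?_⟩
      obtain ⟨B, κ, h⟩ := h3 (2 - σ) (by linarith)
      exact ⟨B, κ, fun s hs => h s (by linarith)⟩
  · intro H hk
    obtain ⟨G₁, g1, g2, g3⟩ := hW.2 H
    obtain ⟨G₂, g4, g5, g6⟩ := hk
    refine ⟨fun s => G₁ s * G₂ s, g1.mul g4, fun s hs => ?_, fun σ => ?_⟩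
    · beta_reduce
      rw [g2 s hs, g5 s hs]
      exact div_mul_cancel₀ _ (Lg_ne k a b hs)
    · obtain ⟨B₁, κ₁, h1⟩ := g3 σ
      obtain ⟨B₂, κ₂, h2⟩ := g6 σ
      refine ⟨B₁ * B₂, κ₁ + κ₂, fun s hs => ?_⟩
      rw [norm_mul]
      calc ‖G₁ s‖ * ‖G₂ s‖ ≤ (B₁ * (1 + ‖s‖) ^ κ₁) * (B₂ * (1 + ‖s‖) ^ κ₂) :=
            mul_le_mul (h1 s hs) (h2 s hs) (norm_nonneg _) ((norm_nonneg _).trans (h1 s hs))
        _ = _ := by rw [pow_add]; ring
  · obtain ⟨F, h1, h2⟩ := one_step_half (L := fun s => Lg K a b s / Lg k a b s) R hd (c := 2 - θ)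
      (by linarith) (by linarith) (fun α h1 h2 => by
        obtain ⟨C, hC⟩ := H α h1 h2
        exact ⟨C, fun n hn => by rw [diff_eq (fun s => Lg K a b s / Lg k a b s)]; exact hC n hn⟩)
    exact ⟨F, fun s hs => h1 s (by linarith), h2⟩
  · exact one_step_whole (L := fun s => Lg K a b s / Lg k a b s) R hd (fun α => by
      obtain ⟨C, hC⟩ := H α
      exact ⟨C, fun n hn => by rw [diff_eq (fun s => Lg K a b s / Lg k a b s)]; exact hC n hn⟩)

end Pool.Agent.Results.MP_bf9450_nt.ValuesAtIntegers
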